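import Mathlib
import Pool.Agent.W363.TF.Fun

set_option autoImplicit false

/-!
There is a torsion-free variety of groups, contained in the variety `𝔑₁𝔑₅` of all groups having an
abelian normal subgroup with quotient nilpotent of class at most five, which is not finitely based.

With left-normed commutators, let `van = [[z₀,…,z₅],[z₆,…,z₁₁]]` and, for `q ≥ 0`,
`wrd q = [[z₀,…,z₅], u₀, u₁, …, u_q]` where `u_k = [[x_k, x_{k+1}], [a_k, b_k, b_k]]` and
`x_{q+1} = x₀`.  The variety consists of the groups which satisfy every law that holds in all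
torsion-free groups satisfying `van` and all the `wrd q`.
-/

namespace Pool.Agent.Results.MP_8149cf_al.TorsionFreeNotFB

open Pool.Agent.W363.TF Pool.Agent.W363.TF.T5 Pool.Agent.W363.TF.WG

open scoped commutatorElement

universe u

/-- the word `w` is a law of the group `G`: its value is trivial under every substitution of
elements of `G` for the letters -/
def IsLaw (w : FreeGroup ℕ) (G : Type u) [Group G] : Prop :=
  ∀ f : FreeGroup ℕ →* G, f w = 1

/-- `G` belongs to the variety defined by the set `W` of words -/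
def InVariety (W : Set (FreeGroup ℕ)) (G : Type u) [Group G] : Prop :=
  ∀ w ∈ W, IsLaw w G

/-- the verbal subgroup of `G` defined by `W`: it is generated by all values in `G` of the words of
`W` -/
def Verbal (W : Set (FreeGroup ℕ)) (G : Type u) [Group G] : Subgroup G :=
  Subgroup.closure {g | ∃ w ∈ W, ∃ f : FreeGroup ℕ →* G, f w = g}

/-- the verbal subgroup is normal -/
instance verbal_normal (W : Set (FreeGroup ℕ)) (G : Type u) [Group G] : (Verbal W G).Normal := by
  unfold Verbal
  constructor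
  intro n hn g
  induction hn using Subgroup.closure_induction with
  | mem x hx =>
    obtain ⟨s, hs, ψ, rfl⟩ := hx
    apply Subgroup.subset_closure
    refine ⟨s, hs, (MulAut.conj g).toMonoidHom.comp ψ, ?_⟩
    simp
  | one => simp
  | mul x y _ _ hx hy =>
    have : g * (x * y) * g⁻¹ = (g * x * g⁻¹) * (g * y * g⁻¹) := by group
    rw [this]
    exact Subgroup.mul_mem _ hx hy
  | inv x _ hx =>
    have : g * x⁻¹ * g⁻¹ = (g * x * g⁻¹)⁻¹ := by group
    rw [this]
    exact Subgroup.inv_mem _ hx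

/-- a group is torsion-free: every element other than the identity has infinite order -/
def TorsionFree (G : Type u) [Group G] : Prop :=
  ∀ (x : G) (n : ℕ), n ≠ 0 → x ^ n = 1 → x = 1

/-- the variety defined by `W` is torsion-free: for every set `κ` the relatively free group
`FreeGroup κ ⧸ Verbal W (FreeGroup κ)` is torsion-free -/
def IsTorsionFreeVariety (W : Set (FreeGroup ℕ)) : Prop :=
  ∀ κ : Type u, TorsionFree (FreeGroup κ ⧸ Verbal W (FreeGroup κ))

/-- `G` belongs to the product variety `𝔑_c𝔑_d`: it has a normal subgroup `K` which is nilpotent of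
class at most `c` and such that `G ⧸ K` is nilpotent of class at most `d` -/
def InNN (c d : ℕ) (G : Type u) [Group G] : Prop :=
  ∃ K : Subgroup G, ∃ _ : K.Normal, (⊤ : Subgroup K).lowerCentralSeries c = ⊥ ∧
    (⊤ : Subgroup (G ⧸ K)).lowerCentralSeries d = ⊥

/-! ### the law `van` and `𝔑₁𝔑₅` -/

section an

variable {G : Type u} [Group G]

/-- left-normed commutators of weight `n+1` -/
def Lc (G : Type u) [Group G] : ℕ → Set G
  | 0 => Set.univ
  | (n+1) => {v | ∃ x ∈ Lc G n, ∃ y : G, v = cm x y}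

theorem Lc_conj (n : ℕ) (g x : G) (hx : x ∈ Lc G n) : g * x * g⁻¹ ∈ Lc G n := by
  induction n generalizing x with
  | zero => exact Set.mem_univ _
  | succ n ih =>
    obtain ⟨a, ha, b, rfl⟩ := hx
    refine ⟨g * a * g⁻¹, ih a ha, g * b * g⁻¹, ?_⟩
    unfold cm; group

theorem closure_Lc_conj (n : ℕ) (g x : G) (hx : x ∈ Subgroup.closure (Lc G n)) :
    g * x * g⁻¹ ∈ Subgroup.closure (Lc G n) := by
  induction hx using Subgroup.closure_induction with
  | mem x hx => exact Subgroup.subset_closure (Lc_conj n g x hx)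
  | one => simp
  | mul x y _ _ hx hy =>
    have : g * (x * y) * g⁻¹ = (g * x * g⁻¹) * (g * y * g⁻¹) := by group
    rw [this]
    exact Subgroup.mul_mem _ hx hy
  | inv x _ hx =>
    have : g * x⁻¹ * g⁻¹ = (g * x * g⁻¹)⁻¹ := by group
    rw [this]
    exact Subgroup.inv_mem _ hx

theorem lcs_le (n : ℕ) : (⊤ : Subgroup G).lowerCentralSeries n ≤ Subgroup.closure (Lc G n) := by
  induction n with
  | zero =>
    intro x _
    exact Subgroup.subset_closure (Set.mem_univ x)
  | succ n ih =>
    rw [Subgroup.lowerCentralSeries_succ, Subgroup.commutator_le]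
    intro p hp q _
    have hp' := ih hp
    clear hp
    induction hp' using Subgroup.closure_induction with
    | mem x hx => exact Subgroup.subset_closure ⟨x, hx, q, by simp [cm, commutatorElement_def]⟩
    | one => simp
    | mul x y _ _ hx hy =>
      have : ⁅x * y, q⁆ = (x * ⁅y, q⁆ * x⁻¹) * ⁅x, q⁆ := by
        simp only [commutatorElement_def]; group
      rw [this]
      exact Subgroup.mul_mem _ (closure_Lc_conj _ _ _ hy) hx
    | inv x _ hx =>
      have : ⁅x⁻¹, q⁆ = (x⁻¹ * ⁅x, q⁆ * x⁻¹⁻¹)⁻¹ := by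
        simp only [commutatorElement_def]; group
      rw [this]
      exact Subgroup.inv_mem _ (closure_Lc_conj _ _ _ hx)

theorem Lc_five {x : G} (hx : x ∈ Lc G 5) : ∃ z : ℕ → G, x = e6 z := by
  obtain ⟨x4, ⟨x3, ⟨x2, ⟨x1, ⟨x0, _, y1, rfl⟩, y2, rfl⟩, y3, rfl⟩, y4, rfl⟩, y5, rfl⟩ := hx
  refine ⟨fun i => match i with
    | 0 => x0
    | 1 => y1
    | 2 => y2
    | 3 => y3
    | 4 => y4
    | _ => y5, rfl⟩

theorem van_comm (h : IsLaw van G) (z z' : ℕ → G) : e6 z * e6 z' = e6 z' * e6 z := by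
  let f : F →* G := FreeGroup.lift (fun i => if i < 6 then z i else z' (i-6))
  have h1 := h f
  unfold van at h1
  rw [map_cm, map_e6, map_e6] at h1
  have e1 : e6 (fun i => f (FreeGroup.of i)) = e6 z := by
    simp [e6, f]
  have e2 : e6 (fun i => f (FreeGroup.of (6+i))) = e6 z' := by
    simp [e6, f]
  rw [e1, e2] at h1
  unfold cm at h1
  rw [mul_inv_eq_one, mul_inv_eq_iff_eq_mul] at h1
  exact h1

theorem van_nn (h : IsLaw van G) : InNN 1 5 G := by
  let K : Subgroup G := Subgroup.closure {x | ∃ z : ℕ → G, x = e6 z}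
  have hK : K.Normal := by
    constructor
    intro n hn g
    change n ∈ Subgroup.closure {x | ∃ z : ℕ → G, x = e6 z} at hn
    change g * n * g⁻¹ ∈ Subgroup.closure {x | ∃ z : ℕ → G, x = e6 z}
    induction hn using Subgroup.closure_induction with
    | mem x hx =>
      obtain ⟨z, rfl⟩ := hx
      apply Subgroup.subset_closure
      refine ⟨fun i => g * z i * g⁻¹, ?_⟩
      exact map_e6 (MulAut.conj g).toMonoidHom z
    | one => simp
    | mul x y _ _ hx hy =>
      have : g * (x * y) * g⁻¹ = (g * x * g⁻¹) * (g * y * g⁻¹) := by group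
      rw [this]
      exact Subgroup.mul_mem _ hx hy
    | inv x _ hx =>
      have : g * x⁻¹ * g⁻¹ = (g * x * g⁻¹)⁻¹ := by group
      rw [this]
      exact Subgroup.inv_mem _ hx
  refine ⟨K, hK, ?_, ?_⟩
  · have key : K ≤ Subgroup.centralizer {x | ∃ z : ℕ → G, x = e6 z} := by
      change Subgroup.closure {x | ∃ z : ℕ → G, x = e6 z} ≤ _
      rw [Subgroup.closure_le]
      rintro _ ⟨z, rfl⟩
      rw [SetLike.mem_coe, Subgroup.mem_centralizer_iff]
      rintro _ ⟨z', rfl⟩
      exact van_comm h z' z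
    have key2 : K ≤ Subgroup.centralizer (K : Set G) := by
      change Subgroup.closure {x | ∃ z : ℕ → G, x = e6 z} ≤ _
      rw [Subgroup.closure_le]
      rintro _ ⟨z, rfl⟩
      rw [SetLike.mem_coe, Subgroup.mem_centralizer_iff]
      intro y hy
      have := key hy
      rw [Subgroup.mem_centralizer_iff] at this
      exact (this (e6 z) ⟨z, rfl⟩).symm
    rw [eq_bot_iff, Subgroup.lowerCentralSeries_succ, Subgroup.commutator_le]
    rintro ⟨x, hx⟩ _ ⟨y, hy⟩ _
    have := key2 hx
    rw [Subgroup.mem_centralizer_iff] at this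
    have h2 := this y hy
    rw [Subgroup.mem_bot, commutatorElement_def, mul_inv_eq_one, mul_inv_eq_iff_eq_mul]
    exact Subtype.ext h2.symm
  · rw [eq_bot_iff]
    refine (lcs_le 5).trans ?_
    rw [Subgroup.closure_le]
    intro x hx
    obtain ⟨z, rfl⟩ := Lc_five hx
    have hs : Function.Surjective (QuotientGroup.mk' K) := QuotientGroup.mk'_surjective _
    choose r hr using fun i : ℕ => hs (z i)
    have hz : z = fun i => QuotientGroup.mk' K (r i) := by
      funext i; exact (hr i).symm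
    rw [hz, ← map_e6, SetLike.mem_coe, Subgroup.mem_bot]
    have : e6 r ∈ K := Subgroup.subset_closure ⟨r, rfl⟩
    simpa using this

end an

/-! ### the variety -/

/-- the laws we start from -/
def WS : Set F := {w | w = van ∨ ∃ q, w = wrd q}

/-- all laws which hold in the torsion-free groups satisfying `WS` -/
def WT : Set F := {w | ∀ (G : Type) [Group G], TorsionFree G → InVariety WS G → IsLaw w G}

theorem WS_sub : WS ⊆ WT := fun w hw _ _ _ h => h w hw

theorem law_of_verbal {W : Set F} {A : Type u} [Group A] {w : A} (hw : w ∈ Verbal W A)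
    {G : Type} [Group G] (hG : InVariety W G) (f : A →* G) : f w = 1 := by
  have : Verbal W A ≤ f.ker := by
    unfold Verbal
    rw [Subgroup.closure_le]
    rintro _ ⟨s, hs, ψ, rfl⟩
    exact hG s hs (f.comp ψ)
  exact this hw

/-- an element of a free group lives in a free factor of countable rank -/
theorem supp {κ : Type u} (g : FreeGroup κ) :
    ∃ s : Finset κ, ∀ f : FreeGroup κ →* FreeGroup κ, (∀ i ∈ s, f (FreeGroup.of i) =
      FreeGroup.of i) → f g = g := by
  classical
  induction g using FreeGroup.induction_on with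
  | C1 => exact ⟨∅, fun f _ => map_one f⟩
  | of i => exact ⟨{i}, fun f h => h i (Finset.mem_singleton_self i)⟩
  | inv_of i _ =>
    refine ⟨{i}, fun f h => ?_⟩
    rw [map_inv, h i (Finset.mem_singleton_self i)]
  | mul x y hx hy =>
    obtain ⟨s, hs⟩ := hx
    obtain ⟨t, ht⟩ := hy
    refine ⟨s ∪ t, fun f h => ?_⟩
    rw [map_mul, hs f (fun i hi => h i (Finset.mem_union_left _ hi)),
      ht f (fun i hi => h i (Finset.mem_union_right _ hi))]

theorem retract {κ : Type u} (g : FreeGroup κ) :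
    ∃ (ρ : FreeGroup κ →* F) (ψ : F →* FreeGroup κ), ψ (ρ g) = g := by
  classical
  obtain ⟨s, hs⟩ := supp g
  let e : κ → ℕ := fun i => if h : i ∈ s then (s.equivFin ⟨i, h⟩ : ℕ) else 0
  let d : ℕ → FreeGroup κ := fun m =>
    if h : m < s.card then FreeGroup.of ((s.equivFin.symm ⟨m, h⟩ : s) : κ) else 1
  refine ⟨FreeGroup.lift (fun i => FreeGroup.of (e i)), FreeGroup.lift d, ?_⟩
  apply hs ((FreeGroup.lift d).comp (FreeGroup.lift (fun i => FreeGroup.of (e i))))
  intro i hi
  simp only [MonoidHom.comp_apply, FreeGroup.lift_apply_of]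
  have h1 : e i = (s.equivFin ⟨i, hi⟩ : ℕ) := dif_pos hi
  have h2 : e i < s.card := by rw [h1]; exact (s.equivFin ⟨i, hi⟩).2
  have h3 : d (e i) = FreeGroup.of ((s.equivFin.symm ⟨e i, h2⟩ : s) : κ) := dif_pos h2
  rw [h3]
  have h4 : (⟨e i, h2⟩ : Fin s.card) = s.equivFin ⟨i, hi⟩ := Fin.ext h1
  rw [h4, Equiv.symm_apply_apply]

/-- the laws of `WT` hold in the torsion-free groups satisfying `WS` -/
theorem inWT {G : Type} [Group G] (hT : TorsionFree G) (h : InVariety WS G) : InVariety WT G :=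
  fun _ hw => hw G hT h

theorem WT_torsionFree : IsTorsionFreeVariety.{u} WT := by
  intro κ x n hn hx
  obtain ⟨g, rfl⟩ := QuotientGroup.mk'_surjective (Verbal WT (FreeGroup κ)) x
  rw [← map_pow] at hx
  have hx' : g ^ n ∈ Verbal WT (FreeGroup κ) := (QuotientGroup.eq_one_iff (g ^ n)).mp hx
  obtain ⟨ρ, ψ, hρ⟩ := retract g
  have hw : ρ g ∈ WT := by
    intro G _ hT hG f
    apply hT _ n hn
    have h1 := law_of_verbal hx' (inWT hT hG) (f.comp ρ)
    rwa [MonoidHom.comp_apply, map_pow, map_pow] at h1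
  have h2 : g ∈ Verbal WT (FreeGroup κ) := by
    apply Subgroup.subset_closure
    exact ⟨ρ g, hw, ψ, hρ⟩
  exact (QuotientGroup.eq_one_iff g).mpr h2

/-! ### the test groups satisfy the laws in few variables -/

theorem KZ_in (Y : Subgroup (T5 ℤ)) : InVariety WT (KZ Y) := by
  apply inWT (fun x n hn h => KZ_torsionFree Y x n hn h)
  rintro w (rfl | ⟨q, rfl⟩) f
  · exact KZ_van Y f
  · exact KZ_wrd Y q f

/-- the relation of being a lift -/
def Rel (Y : Subgroup (T5 ℤ)) : Subgroup (KZ Y × WG (T5 (ZMod 2)) (ZMod 2)) where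
  carrier := {p | pi2 p.1.1.t = p.2.t ∧ ∀ τ : T5 ℤ, ((p.1.1.f τ : ℤ) : ZMod 2) = p.2.f (pi2 τ)}
  mul_mem' := by
    rintro ⟨x, x'⟩ ⟨y, y'⟩ ⟨h1, h2⟩ ⟨h3, h4⟩
    refine ⟨?_, fun τ => ?_⟩
    · change pi2 (x.1.t * y.1.t) = x'.t * y'.t
      rw [map_mul, h1, h3]
    · change ((x.1.f τ + y.1.f (τ * x.1.t) : ℤ) : ZMod 2) = x'.f (pi2 τ) + y'.f (pi2 τ * x'.t)
      rw [Int.cast_add, h2, h4, map_mul, h1]
  one_mem' := by
    refine ⟨map_one _, fun τ => ?_⟩
    change ((0 : ℤ) : ZMod 2) = 0
    exact Int.cast_zero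
  inv_mem' := by
    rintro ⟨x, x'⟩ ⟨h1, h2⟩
    refine ⟨?_, fun τ => ?_⟩
    · change pi2 (x.1.t⁻¹) = x'.t⁻¹
      rw [map_inv, h1]
    · change ((- x.1.f (τ * x.1.t⁻¹) : ℤ) : ZMod 2) = - x'.f (pi2 τ * x'.t⁻¹)
      rw [Int.cast_neg, h2, map_mul, map_inv, h1]

theorem lift_mem {Y : Subgroup (T5 ℤ)} (k : ℕ → KZ Y) (h : ℕ → WG (T5 (ZMod 2)) (ZMod 2))
    (hR : ∀ i, (k i, h i) ∈ Rel Y) (w : F) :
    (FreeGroup.lift k w, FreeGroup.lift h w) ∈ Rel Y := by
  induction w using FreeGroup.induction_on with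
  | C1 => rw [map_one, map_one]; exact (Rel Y).one_mem
  | of i => rw [FreeGroup.lift_apply_of, FreeGroup.lift_apply_of]; exact hR i
  | inv_of i _ =>
    rw [map_inv, map_inv, FreeGroup.lift_apply_of, FreeGroup.lift_apply_of]
    exact (Rel Y).inv_mem (hR i)
  | mul x y hx hy =>
    rw [map_mul, map_mul]
    exact (Rel Y).mul_mem hx hy

theorem lift_one {Y : Subgroup (T5 ℤ)} (k : ℕ → KZ Y) (h : ℕ → WG (T5 (ZMod 2)) (ZMod 2))
    (hR : ∀ i, (k i, h i) ∈ Rel Y) {w : F} (hw : FreeGroup.lift k w = 1) :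
    FreeGroup.lift h w = 1 := by
  obtain ⟨h1, h2⟩ := lift_mem k h hR w
  rw [hw] at h1 h2
  ext1
  · funext s
    have h3 := h2 (up s)
    rw [pi2_up] at h3
    rw [← h3]
    change ((0 : ℤ) : ZMod 2) = 0
    exact Int.cast_zero
  · rw [← h1]
    exact map_one _

/-- a word involves finitely many letters -/
theorem letters (w : F) : ∃ m : ℕ, ∀ {G : Type} [Group G] (f g : F →* G),
    (∀ i < m, f (FreeGroup.of i) = g (FreeGroup.of i)) → f w = g w := by
  induction w using FreeGroup.induction_on with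
  | C1 => exact ⟨0, fun f g _ => by rw [map_one, map_one]⟩
  | of i => exact ⟨i+1, fun f g h => h i (Nat.lt_succ_self i)⟩
  | inv_of i _ =>
    refine ⟨i+1, fun f g h => ?_⟩
    rw [map_inv, map_inv, h i (Nat.lt_succ_self i)]
  | mul x y hx hy =>
    obtain ⟨m, hm⟩ := hx
    obtain ⟨m', hm'⟩ := hy
    refine ⟨max m m', fun f g h => ?_⟩
    rw [map_mul, map_mul, hm f g (fun i hi => h i (lt_of_lt_of_le hi (le_max_left _ _))),
      hm' f g (fun i hi => h i (lt_of_lt_of_le hi (le_max_right _ _)))]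

theorem finite_letters {S : Set F} (hS : S.Finite) : ∃ m : ℕ, ∀ w ∈ S, ∀ {G : Type} [Group G]
    (f g : F →* G), (∀ i < m, f (FreeGroup.of i) = g (FreeGroup.of i)) → f w = g w := by
  choose r hr using letters
  obtain ⟨m, hm⟩ := (hS.image r).bddAbove
  refine ⟨m, fun w hw G _ f g h => hr w f g (fun i hi => h i ?_)⟩
  exact lt_of_lt_of_le hi (hm (Set.mem_image_of_mem r hw))

theorem two_coordinates {m n : ℕ} (hn : 2 ^ m < n) (t : ℕ → T5 (ZMod 2)) :
    ∃ j j' : Fin n, j ≠ j' ∧ ∀ i < m, (t i).a j = (t i).a j' := by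
  have hc : Fintype.card (Fin m → ZMod 2) < Fintype.card (Fin n) := by
    rw [Fintype.card_fun, ZMod.card, Fintype.card_fin, Fintype.card_fin]; exact hn
  obtain ⟨j, j', hj, h⟩ := Fintype.exists_ne_map_eq_of_card_lt
    (fun (j : Fin n) (i : Fin m) => (t i).a j) hc
  exact ⟨j, j', hj, fun i hi => congrFun h ⟨i, hi⟩⟩

theorem HN_in {S : Set F} {m n : ℕ} (hm : ∀ w ∈ S, ∀ {G : Type} [Group G]
    (f g : F →* G), (∀ i < m, f (FreeGroup.of i) = g (FreeGroup.of i)) → f w = g w)
    (hn : 2 ^ m < n) (hS : ∀ Y : Subgroup (T5 ℤ), InVariety S (KZ Y)) : InVariety S (HN n) := by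
  intro w hw f
  apply (HN n).subtype_injective
  rw [map_one]
  obtain ⟨j, j', hj, ht⟩ := two_coordinates hn (fun i => (f (FreeGroup.of i)).1.t)
  choose g hg hg' using fun i : ℕ => (f (FreeGroup.of i)).2 j j' hj
  let k : ℕ → KZ (YY j j') := fun i =>
    if h : i < m then ⟨⟨g i, up (f (FreeGroup.of i)).1.t⟩, by
      refine ⟨?_, hg i⟩
      rw [mem_YY]
      change (((f (FreeGroup.of i)).1.t.a j).val : ℤ) = (((f (FreeGroup.of i)).1.t.a j').val : ℤ)
      rw [ht i h]⟩ else 1
  let h : ℕ → WG (T5 (ZMod 2)) (ZMod 2) := fun i => if i < m then (f (FreeGroup.of i)).1 else 1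
  have hR : ∀ i, (k i, h i) ∈ Rel (YY j j') := by
    intro i
    by_cases hi : i < m
    · simp only [k, h, dif_pos hi, if_pos hi]
      refine ⟨?_, fun τ => ?_⟩
      · exact pi2_up _
      · exact hg' i τ
    · simp only [k, h, dif_neg hi, if_neg hi]
      exact (Rel (YY j j')).one_mem
  have h1 := lift_one k h hR (hS (YY j j') w hw (FreeGroup.lift k))
  rw [← h1]
  change ((HN n).subtype.comp f) w = _
  apply hm w hw
  intro i hi
  rw [MonoidHom.comp_apply, FreeGroup.lift_apply_of]
  simp only [h, if_pos hi]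
  rfl

theorem ulift_iff (W : Set F) (G : Type) [Group G] :
    InVariety W (ULift.{u} G) ↔ InVariety W G := by
  constructor
  · intro h w hw f
    have h1 := h w hw ((MulEquiv.ulift (α := G)).symm.toMonoidHom.comp f)
    have h2 := congrArg (MulEquiv.ulift (α := G)) h1
    simpa using h2
  · intro h w hw f
    have h1 := h w hw ((MulEquiv.ulift (α := G)).toMonoidHom.comp f)
    apply (MulEquiv.ulift (α := G)).injective
    simpa using h1

/-- the law `van` holds in every group satisfying `WT` -/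
theorem van_of_WT {G : Type u} [Group G] (h : InVariety WT G) : IsLaw van G :=
  h van (WS_sub (Or.inl rfl))

/-- **A torsion-free metanilpotent variety need not be finitely based.**  There is a set `W` of
words such that the variety of groups defined by `W` is torsion-free, is contained in `𝔑₁𝔑₅` (every
group in it has an abelian normal subgroup with quotient nilpotent of class at most `5`), and is not
defined by any finite set of words. -/
theorem result : ∃ W : Set (FreeGroup ℕ),
    IsTorsionFreeVariety.{u} W ∧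
    (∀ (G : Type u) [Group G], InVariety W G → InNN 1 5 G) ∧
    ¬ ∃ S : Set (FreeGroup ℕ), S.Finite ∧
      ∀ (G : Type u) [Group G], InVariety S G ↔ InVariety W G := by
  refine ⟨WT, WT_torsionFree, fun G _ h => van_nn (van_of_WT h), ?_⟩
  rintro ⟨S, hS, hiff⟩
  have hiff0 : ∀ (G : Type) [Group G], InVariety S G ↔ InVariety WT G := by
    intro G _
    rw [← ulift_iff.{u} S G, ← ulift_iff.{u} WT G]
    exact hiff _
  obtain ⟨m, hm⟩ := finite_letters hS
  obtain ⟨N, hN⟩ : ∃ N, N + 1 = 2 ^ (m + 1) := ⟨2 ^ (m+1) - 1, by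
    have := Nat.one_le_two_pow (n := m+1)
    omega⟩
  have hlt : 2 ^ m < N + 1 := by
    rw [hN, pow_succ]
    have := Nat.one_le_two_pow (n := m)
    omega
  have hE : Even (N + 1) := by
    rw [hN, pow_succ]
    exact even_two.mul_left _
  have h1 : 1 ≤ N := by
    have := Nat.one_le_two_pow (n := m)
    omega
  have h2 : InVariety S (HN (N+1)) :=
    HN_in hm hlt (fun Y => (hiff0 _).mpr (KZ_in Y))
  have h3 := (hiff0 _).mp h2
  obtain ⟨φ, hφ⟩ := HN_not_wrd h1 hE
  exact hφ (h3 (wrd N) (WS_sub (Or.inr ⟨N, rfl⟩)) φ)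

end Pool.Agent.Results.MP_8149cf_al.TorsionFreeNotFB
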